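import Pool.Agent.H376R3.Bae2

set_option autoImplicit false
set_option linter.unusedSectionVars false

namespace Pool.Agent.Results.MP_7f7e2f_an.KottmanDrop

open Filter Topology

/-- The separation of a sequence: the infimum of `‖x n - x m‖` over `n ≠ m`. -/
noncomputable def sep {X : Type*} [NormedAddCommGroup X] (x : ℕ → X) : ℝ :=
  sInf {r : ℝ | ∃ n m : ℕ, n ≠ m ∧ r = ‖x n - x m‖}

/-- The symmetric separation of a sequence: the infimum of `min ‖x n - x m‖ ‖x n + x m‖`
over `n ≠ m`. -/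
noncomputable def symmSep {X : Type*} [NormedAddCommGroup X] (x : ℕ → X) : ℝ :=
  sInf {r : ℝ | ∃ n m : ℕ, n ≠ m ∧ r = min ‖x n - x m‖ ‖x n + x m‖}

/-- The Kottman constant: the supremum of the separations of sequences in the closed unit ball. -/
noncomputable def kottman (X : Type*) [NormedAddCommGroup X] : ℝ :=
  sSup {s : ℝ | ∃ x : ℕ → X, (∀ n, ‖x n‖ ≤ 1) ∧ s = sep x}

/-- The symmetric Kottman constant. -/
noncomputable def symmKottman (X : Type*) [NormedAddCommGroup X] : ℝ :=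
  sSup {s : ℝ | ∃ x : ℕ → X, (∀ n, ‖x n‖ ≤ 1) ∧ s = symmSep x}

/-- `Z` is a spreading model of `X`: there is a normalized sequence `y` in `X` with no Cauchy
subsequence such that all iterated limits `L a` of the norms of `∑ a i • y (n i)` exist, and `Z`
is (isometric to) the completion of the finitely supported sequences under the norm `L`, i.e.
`Z` is complete and contains a linearly independent sequence `e` with dense linear span such that
the norm of `∑ a i • e i` is the limit `L a`. -/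
def IsSpreadingModel (X Z : Type*) [NormedAddCommGroup X] [NormedSpace ℝ X]
    [NormedAddCommGroup Z] [NormedSpace ℝ Z] : Prop :=
  CompleteSpace Z ∧ ∃ (y : ℕ → X) (e : ℕ → Z),
    (∀ n, ‖y n‖ = 1) ∧
    (∀ φ : ℕ → ℕ, StrictMono φ → ¬ CauchySeq (y ∘ φ)) ∧
    (∀ (k : ℕ) (a : Fin k → ℝ), ∀ ε > 0, ∃ N : ℕ, ∀ n : Fin k → ℕ, StrictMono n →
      (∀ i, N ≤ n i) → |‖∑ i, a i • y (n i)‖ - ‖∑ i, a i • e i‖| < ε) ∧
    LinearIndependent ℝ e ∧
    Dense (Submodule.span ℝ (Set.range e) : Set Z)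

section general

variable {X : Type*} [NormedAddCommGroup X]

lemma sep_le (x : ℕ → X) {n m : ℕ} (h : n ≠ m) : sep x ≤ ‖x n - x m‖ :=
  csInf_le ⟨0, by rintro _ ⟨n, m, -, rfl⟩; exact norm_nonneg _⟩ ⟨n, m, h, rfl⟩

lemma symmSep_le (x : ℕ → X) {n m : ℕ} (h : n ≠ m) :
    symmSep x ≤ min ‖x n - x m‖ ‖x n + x m‖ :=
  csInf_le ⟨0, by
    rintro _ ⟨n, m, -, rfl⟩
    exact le_min (norm_nonneg _) (norm_nonneg _)⟩ ⟨n, m, h, rfl⟩

lemma symmSep_le_sep (x : ℕ → X) : symmSep x ≤ sep x := by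
  refine le_csInf ⟨_, 0, 1, by norm_num, rfl⟩ ?_
  rintro _ ⟨n, m, h, rfl⟩
  exact (symmSep_le x h).trans (min_le_left _ _)

lemma sep_le_two {x : ℕ → X} (hx : ∀ n, ‖x n‖ ≤ 1) : sep x ≤ 2 := by
  refine (sep_le x (show 0 ≠ 1 by norm_num)).trans ((norm_sub_le _ _).trans ?_)
  linarith [hx 0, hx 1]

lemma kottman_bdd : BddAbove {s : ℝ | ∃ x : ℕ → X, (∀ n, ‖x n‖ ≤ 1) ∧ s = sep x} :=
  ⟨2, by rintro _ ⟨x, hx, rfl⟩; exact sep_le_two hx⟩

lemma symmKottman_bdd : BddAbove {s : ℝ | ∃ x : ℕ → X, (∀ n, ‖x n‖ ≤ 1) ∧ s = symmSep x} :=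
  ⟨2, by rintro _ ⟨x, hx, rfl⟩; exact (symmSep_le_sep x).trans (sep_le_two hx)⟩

lemma kottman_le_two : kottman X ≤ 2 := by
  refine csSup_le ⟨_, fun _ => 0, by simp, rfl⟩ ?_
  rintro _ ⟨x, hx, rfl⟩
  exact sep_le_two hx

lemma symmKottman_le_kottman : symmKottman X ≤ kottman X := by
  refine csSup_le ⟨_, fun _ => 0, by simp, rfl⟩ ?_
  rintro _ ⟨x, hx, rfl⟩
  exact (symmSep_le_sep x).trans (le_csSup kottman_bdd ⟨x, hx, rfl⟩)

lemma not_cauchy {x : ℕ → X} (h : ∀ n m, n ≠ m → 1 ≤ ‖x n - x m‖) (φ : ℕ → ℕ)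
    (hφ : StrictMono φ) : ¬ CauchySeq (x ∘ φ) := by
  intro hc
  obtain ⟨N, hN⟩ := Metric.cauchySeq_iff.1 hc 1 one_pos
  have h1 := hN N le_rfl (N + 1) (Nat.le_succ N)
  rw [dist_eq_norm] at h1
  have h2 := h (φ N) (φ (N + 1)) (hφ (Nat.lt_succ_self N)).ne
  simp only [Function.comp_apply] at h1
  linarith

lemma not_finiteDimensional [NormedSpace ℝ X] {x : ℕ → X} (hx : ∀ n, ‖x n‖ ≤ 1)
    (h : ∀ n m, n ≠ m → 1 ≤ ‖x n - x m‖) : ¬ FiniteDimensional ℝ X := by
  intro hf
  have : ProperSpace X := FiniteDimensional.proper ℝ X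
  obtain ⟨a, -, φ, hφ, hlim⟩ := tendsto_subseq_of_bounded
    (Metric.isBounded_closedBall (x := (0 : X)) (r := 1)) (x := x) (fun n => by simpa using hx n)
  exact not_cauchy h φ hφ hlim.cauchySeq

end general

open BoundedContinuousFunction Pool.Agent.H376R3.Bae

/-- coordinate vectors in the bounded sequences -/
noncomputable def e0 (i : ℕ) : ℕ →ᵇ ℝ :=
  BoundedContinuousFunction.ofNormedAddCommGroupDiscrete (fun n => if n = i then 1 else 0) 1
    (fun n => by split_ifs <;> simp)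

lemma e0_apply (i n : ℕ) : e0 i n = if n = i then 1 else 0 := rfl

/-- the null sequences, as the closed span of the coordinate vectors -/
noncomputable def Z1 : Submodule ℝ (ℕ →ᵇ ℝ) :=
  (Submodule.span ℝ (Set.range e0)).topologicalClosure

/-- the same space, as a type -/
def Z0 : Type := Z1

noncomputable instance : NormedAddCommGroup Z0 := inferInstanceAs (NormedAddCommGroup Z1)
noncomputable instance : NormedSpace ℝ Z0 := inferInstanceAs (NormedSpace ℝ Z1)

instance : CompleteSpace Z0 := by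
  have h : IsClosed (Z1 : Set (ℕ →ᵇ ℝ)) := Submodule.isClosed_topologicalClosure _
  exact h.completeSpace_coe

/-- the inclusion -/
noncomputable def inc : Z0 →ₗᵢ[ℝ] (ℕ →ᵇ ℝ) := Z1.subtypeₗᵢ

/-- coordinate vectors in `Z0` -/
noncomputable def ez (i : ℕ) : Z0 :=
  (⟨e0 i, Submodule.le_topologicalClosure _ (Submodule.subset_span ⟨i, rfl⟩)⟩ : Z1)

lemma inc_ez (i : ℕ) : inc (ez i) = e0 i := rfl

lemma sum_apply {ι : Type*} (s : Finset ι) (a : ι → ℝ) (n : ι → ℕ) (t : ℕ) :
    inc (∑ i ∈ s, a i • ez (n i)) t = ∑ i ∈ s, a i * (if t = n i then 1 else 0) := by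
  rw [map_sum, BoundedContinuousFunction.coe_sum, Finset.sum_apply]
  apply Finset.sum_congr rfl
  intro i _
  rw [map_smul, inc_ez]
  rfl

lemma abs_le_norm (z : Z0) (t : ℕ) : |inc z t| ≤ ‖z‖ := by
  rw [← inc.norm_map z]
  exact BoundedContinuousFunction.norm_coe_le_norm (inc z) t

lemma norm_le_of (z : Z0) {C : ℝ} (hC : 0 ≤ C) (h : ∀ t, |inc z t| ≤ C) : ‖z‖ ≤ C := by
  rw [← inc.norm_map z]
  exact (BoundedContinuousFunction.norm_le hC).2 h

lemma norm_ez (i : ℕ) : ‖ez i‖ = 1 := by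
  apply le_antisymm
  · apply norm_le_of _ zero_le_one
    intro t
    rw [inc_ez, e0_apply]
    split_ifs <;> simp
  · have := abs_le_norm (ez i) i
    rw [inc_ez, e0_apply, if_pos rfl] at this
    simpa using this

lemma ez_sep (n m : ℕ) (h : n ≠ m) : 1 ≤ ‖ez n - ez m‖ := by
  have := abs_le_norm (ez n - ez m) n
  rw [map_sub, BoundedContinuousFunction.sub_apply, inc_ez, inc_ez, e0_apply, e0_apply,
    if_pos rfl, if_neg h] at this
  simpa using this

lemma ez_dense : Dense (Submodule.span ℝ (Set.range ez) : Set Z0) := by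
  have hmap : (Submodule.span ℝ (Set.range ez)).map inc.toLinearMap =
      Submodule.span ℝ (Set.range e0) := by
    rw [Submodule.map_span, ← Set.range_comp]
    rfl
  rw [Metric.dense_iff]
  intro z r hr
  have hz : inc z ∈ closure (Submodule.span ℝ (Set.range e0) : Set (ℕ →ᵇ ℝ)) :=
    (show Z1 from z).2
  obtain ⟨v, hv, hd⟩ := Metric.mem_closure_iff.1 hz r hr
  rw [SetLike.mem_coe, ← hmap] at hv
  obtain ⟨v', hv', rfl⟩ := hv
  refine ⟨v', ?_, hv'⟩
  rw [Metric.mem_ball, dist_comm, ← inc.dist_map]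
  exact hd

lemma ez_indep : LinearIndependent ℝ ez := by
  refine linearIndependent_iff'.2 ?_
  intro s g hg i hi
  have h1 := sum_apply s g (fun i => i) i
  rw [hg, map_zero] at h1
  simp only [mul_ite, mul_one, mul_zero] at h1
  rw [Finset.sum_ite_eq, if_pos hi] at h1
  exact h1.symm

lemma norm_ev_le (n : ℕ) : ‖ev n‖ ≤ 1 :=
  LinearMap.mkContinuous_norm_le _ zero_le_one _

lemma ev_uv (n m : ℕ) : ev n (uv m) = if n = m then 1 else 0 := by
  change (Finsupp.single m (1 : ℝ) : ℕ →₀ ℝ) n = _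
  rw [Finsupp.single_apply]
  by_cases h : n = m
  · rw [if_pos h, if_pos h.symm]
  · rw [if_neg h, if_neg (Ne.symm h)]

lemma norm_ev (n : ℕ) : ‖ev n‖ = 1 := by
  apply le_antisymm (norm_ev_le n)
  have h1 := (ev n).le_opNorm (uv n)
  rw [ev_uv, if_pos rfl, norm_uv, mul_one, norm_one] at h1
  exact h1

lemma ev_sep (n m : ℕ) (h : n ≠ m) : 1 ≤ ‖ev n - ev m‖ := by
  have h1 := (ev n - ev m).le_opNorm (uv n)
  rw [norm_uv, mul_one] at h1
  have h2 : (ev n - ev m) (uv n) = 1 := by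
    change ev n (uv n) - ev m (uv n) = 1
    rw [ev_uv, ev_uv, if_pos rfl, if_neg (Ne.symm h), sub_zero]
  rw [h2, norm_one] at h1
  exact h1

lemma norm_eq (k : ℕ) (a : Fin k → ℝ) (n : Fin k → ℕ) (hn : StrictMono n) (hk : ∀ i, k ≤ n i) :
    ‖∑ i, a i • ev (n i)‖ = ‖∑ i : Fin k, a i • ez (i : ℕ)‖ := by
  classical
  set S : Z0 := ∑ i : Fin k, a i • ez (i : ℕ) with hS
  have hSt : ∀ t, inc S t = ∑ i : Fin k, a i * (if t = (i : ℕ) then 1 else 0) :=
    fun t => sum_apply Finset.univ a (fun i : Fin k => (i : ℕ)) t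
  have hSj : ∀ j : Fin k, |a j| ≤ ‖S‖ := by
    intro j
    have h1 := abs_le_norm S j
    rw [hSt, Finset.sum_eq_single j] at h1
    · simpa using h1
    · intro i _ hij
      rw [if_neg, mul_zero]
      intro h
      exact hij (Fin.ext h.symm)
    · intro h; exact absurd (Finset.mem_univ j) h
  apply le_antisymm
  · refine ContinuousLinearMap.opNorm_le_bound _ (norm_nonneg S) ?_
    have h0 : ∀ y : E, (∑ i, a i • ev (n i)) y = ∑ i, a i * ev (n i) y := by
      intro y
      rw [_root_.sum_apply]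
      rfl
    change ∀ y : ℕ →₀ ℝ, ‖(∑ i, a i • ev (n i)) y‖ ≤ ‖S‖ * nm y
    intro y
    have h1 : (∑ i, a i • ev (n i)) y = ∑ i, a i * y (n i) := h0 y
    rw [h1, Real.norm_eq_abs]
    calc |∑ i, a i * y (n i)| ≤ ∑ i, |a i * y (n i)| := Finset.abs_sum_le_sum_abs _ _
      _ ≤ ∑ i, ‖S‖ * |y (n i)| := by
          apply Finset.sum_le_sum
          intro i _
          rw [abs_mul]
          exact mul_le_mul_of_nonneg_right (hSj i) (abs_nonneg _)
      _ = ‖S‖ * ∑ j ∈ Finset.univ.map ⟨n, hn.injective⟩, |y j| := by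
          rw [← Finset.mul_sum, Finset.sum_map]
          rfl
      _ ≤ ‖S‖ * nm y := by
          apply mul_le_mul_of_nonneg_left _ (norm_nonneg _)
          apply sum_abs_le_nm
          intro j hj
          rw [Finset.mem_map] at hj
          obtain ⟨i, -, rfl⟩ := hj
          rw [Finset.card_map, Finset.card_univ, Fintype.card_fin]
          exact (hk i).trans (Nat.le_succ _)
  · apply norm_le_of _ (norm_nonneg _)
    intro t
    rw [hSt]
    by_cases ht : t < k
    · rw [Finset.sum_eq_single (⟨t, ht⟩ : Fin k)]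
      · rw [if_pos rfl, mul_one]
        have h1 := (∑ i, a i • ev (n i)).le_opNorm (uv (n ⟨t, ht⟩))
        rw [norm_uv, mul_one, _root_.sum_apply, Finset.sum_eq_single (⟨t, ht⟩ : Fin k)]
          at h1
        · have h2 : (a ⟨t, ht⟩ • ev (n ⟨t, ht⟩)) (uv (n ⟨t, ht⟩)) = a ⟨t, ht⟩ := by
            change a ⟨t, ht⟩ * ev (n ⟨t, ht⟩) (uv (n ⟨t, ht⟩)) = _
            rw [ev_uv, if_pos rfl, mul_one]
          rw [h2] at h1
          exact h1
        · intro i _ hi
          change a i * ev (n i) (uv (n ⟨t, ht⟩)) = 0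
          rw [ev_uv, if_neg (fun h => hi (hn.injective h)), mul_zero]
        · intro h; exact absurd (Finset.mem_univ _) h
      · intro i _ hi
        rw [if_neg, mul_zero]
        intro h
        exact hi (Fin.ext h.symm)
      · intro h; exact absurd (Finset.mem_univ _) h
    · rw [Finset.sum_eq_zero]
      · rw [abs_zero]; exact norm_nonneg _
      · intro i _
        rw [if_neg, mul_zero]
        intro h
        have := i.2
        omega

lemma spreading : IsSpreadingModel (StrongDual ℝ E) Z0 := by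
  refine ⟨inferInstance, ev, ez, norm_ev, fun φ hφ => not_cauchy ev_sep φ hφ, ?_, ez_indep,
    ez_dense⟩
  intro k a ε hε
  refine ⟨k, fun n hn hk => ?_⟩
  rw [norm_eq k a n hn hk, sub_self, abs_zero]
  exact hε

lemma kottman_dual_le : kottman (StrongDual ℝ E) ≤ Real.sqrt 2 := by
  refine csSup_le ⟨_, fun _ => 0, by simp, rfl⟩ ?_
  rintro _ ⟨f, hf, rfl⟩
  apply le_of_forall_pos_le_add
  intro ε hε
  obtain ⟨n, m, hnm, h⟩ := close_pair f hf (show 0 < ε / 5 by positivity)
  refine (sep_le f hnm).trans (h.trans ?_)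
  linarith

/-- the symmetrically separated sequence -/
noncomputable def zz (n : ℕ) : Z0 := (∑ i ∈ Finset.range (n + 1), ez i) - ez (n + 1)

lemma zz_apply (n t : ℕ) : inc (zz n) t = (if t < n + 1 then 1 else 0) -
    (if t = n + 1 then 1 else 0) := by
  have h1 := sum_apply (Finset.range (n + 1)) (fun _ => 1) (fun i => i) t
  simp only [one_smul, one_mul] at h1
  unfold zz
  rw [map_sub, BoundedContinuousFunction.sub_apply, h1, inc_ez, e0_apply]
  congr 1
  rw [Finset.sum_ite_eq]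
  simp only [Finset.mem_range]

lemma zz_norm (n : ℕ) : ‖zz n‖ ≤ 1 := by
  apply norm_le_of _ zero_le_one
  intro t
  rw [zz_apply]
  by_cases h1 : t < n + 1
  · rw [if_pos h1, if_neg (by omega)]; simp
  · rw [if_neg h1]
    split_ifs <;> simp

lemma zz_sub {n m : ℕ} (h : m < n) : 2 ≤ ‖zz n - zz m‖ := by
  have h1 := abs_le_norm (zz n - zz m) (m + 1)
  rw [map_sub, BoundedContinuousFunction.sub_apply, zz_apply, zz_apply, if_pos (by omega),
    if_neg (by omega), if_neg (by omega), if_pos rfl] at h1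
  norm_num at h1
  exact h1

lemma zz_add (n m : ℕ) : 2 ≤ ‖zz n + zz m‖ := by
  have h1 := abs_le_norm (zz n + zz m) 0
  rw [map_add, BoundedContinuousFunction.add_apply, zz_apply, zz_apply, if_pos (by omega),
    if_neg (by omega), if_pos (by omega), if_neg (by omega)] at h1
  norm_num at h1
  exact h1

lemma two_le_symmKottman : 2 ≤ symmKottman Z0 := by
  have h : 2 ≤ symmSep zz := by
    refine le_csInf ⟨_, 0, 1, by norm_num, rfl⟩ ?_
    rintro _ ⟨n, m, hnm, rfl⟩
    apply le_min _ (zz_add n m)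
    rcases lt_or_gt_of_ne hnm with h | h
    · exact (zz_sub h).trans (le_of_eq (norm_sub_rev _ _))
    · exact zz_sub h
  exact h.trans (le_csSup symmKottman_bdd ⟨zz, zz_norm, rfl⟩)

/-- There are an infinite-dimensional Banach space `X` and a spreading model `Z` of `X` (in fact
isometric to `c₀`) with `K^s(X) ≤ K(X) ≤ √2` and `K^s(Z) = K(Z) = 2`. -/
theorem result :
    ∃ (X Z : Type) (_ : NormedAddCommGroup X) (_ : NormedSpace ℝ X)
      (_ : NormedAddCommGroup Z) (_ : NormedSpace ℝ Z),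
      CompleteSpace X ∧ ¬ FiniteDimensional ℝ X ∧ CompleteSpace Z ∧ ¬ FiniteDimensional ℝ Z ∧
      IsSpreadingModel X Z ∧
      symmKottman X ≤ kottman X ∧ kottman X ≤ Real.sqrt 2 ∧
      symmKottman Z = 2 ∧ kottman Z = 2 := by
  refine ⟨StrongDual ℝ E, Z0, inferInstance, inferInstance, inferInstance, inferInstance,
    inferInstance, not_finiteDimensional norm_ev_le ev_sep, inferInstance,
    not_finiteDimensional (fun n => (norm_ez n).le) ez_sep, spreading, symmKottman_le_kottman,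
    kottman_dual_le, ?_, ?_⟩
  · exact le_antisymm (symmKottman_le_kottman.trans kottman_le_two) two_le_symmKottman
  · exact le_antisymm kottman_le_two (two_le_symmKottman.trans symmKottman_le_kottman)

end Pool.Agent.Results.MP_7f7e2f_an.KottmanDrop
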